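import Mathlib
import Pool.Agent.H174Z.Grow.Main

set_option autoImplicit false

namespace Pool.Agent.Results.MP_f20ab1_al.AsymGrowth

/-- Asymmetric growth in alternating groups: for every `δ > 0` there is `ε > 0` such that for all
`n ≥ 5` and all `A, B ⊆ Alt(n)` with `|B| ≤ |Alt(n)|^(1-δ)` some `g ∈ Alt(n)` has
`|B A^g| ≥ |B| |A|^ε`, where `B A^g = {b g⁻¹ a g : b ∈ B, a ∈ A}`. -/
theorem result : ∀ δ : ℝ, 0 < δ → ∃ ε : ℝ, 0 < ε ∧ ∀ n : ℕ, 5 ≤ n →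
    ∀ A B : Finset (alternatingGroup (Fin n)),
      (B.card : ℝ) ≤ (Nat.card (alternatingGroup (Fin n)) : ℝ) ^ (1 - δ) →
      ∃ g : alternatingGroup (Fin n), (B.card : ℝ) * (A.card : ℝ) ^ ε ≤
        (((B ×ˢ A).image (fun p => p.1 * (g⁻¹ * p.2 * g))).card : ℝ) :=
  Pool.Agent.H174Z.Grow.main

end Pool.Agent.Results.MP_f20ab1_al.AsymGrowth
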